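import Pool.Agent.Helper85_CYD.StG
import Pool.Agent.Helper85_CYD.St2

/-! # CYD, module PDV: the lower bound for the norm of `h` -/

set_option autoImplicit false

open Polynomial IsLocalRing

namespace Pool.Agent.CYD.H27

/-- An element of all valuation subrings is an algebraic integer. -/
lemma isIntegral_of_forall_mem {K : Type} [Field K] {y : K}
    (hy : ∀ A : ValuationSubring K, y ∈ A) : IsIntegral ℤ y := by
  have h1 : y ∈ (⨅ V : {V : ValuationSubring K // (∅ : Set K) ⊆ V.toSubring},
      V.1.toSubring) := by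
    rw [Subring.mem_iInf]
    intro V
    exact hy V.1
  rw [iInf_valuationSubring_superset] at h1
  have h2 : IsIntegral (Subring.closure (∅ : Set K)) y := h1
  have : Algebra.IsIntegral ℤ (Subring.closure (∅ : Set K)) := by
    constructor
    rintro ⟨r, hr⟩
    have hr' := hr
    rw [Subring.closure_empty, Subring.mem_bot] at hr'
    obtain ⟨n, hn⟩ := hr'
    have h3 : (⟨r, hr⟩ : Subring.closure (∅ : Set K)) =
        algebraMap ℤ (Subring.closure (∅ : Set K)) n := by
      apply Subtype.ext
      show r = _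
      simp [hn]
    rw [h3]
    exact isIntegral_algebraMap
  exact isIntegral_trans y h2

theorem amem {K : Type} [Field K] (A : ValuationSubring K) (a : A) : algebraMap A K a ∈ A := a.2

theorem pdv (hLoc : LocStmt) (hRam : RamStmt) (hSpl : SplStmt) : PdvStmt := by
  intro p m s h hp hpm hm hred K _ _ _ z hz hy0
  have hp0 : (p : K) ≠ 0 := Nat.cast_ne_zero.mpr hp.ne_zero
  have hpmpos : 0 < p * m := Nat.mul_pos hp.pos hm
  have hzint : IsIntegral ℤ z := hz.isIntegral hpmpos
  have key : ∀ A : ValuationSubring K, (aeval z h) ^ (p - 1) / (p : K) ^ s ∈ A := by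
    intro A
    have hzA' : IsIntegral A z := hzint.tower_top
    obtain ⟨zA, hzA⟩ := (IsIntegrallyClosed.isIntegral_iff (R := A) (K := K)).mp hzA'
    have hzp : IsPrimitiveRoot zA (p * m) := by
      apply IsPrimitiveRoot.of_map_of_injective (f := algebraMap A K)
      · rw [hzA]; exact hz
      · exact IsFractionRing.injective A K
    have hev : aeval z h = algebraMap A K (aeval zA h) := by
      rw [← hzA, Polynomial.aeval_algebraMap_apply]
    have hpA' : algebraMap A K (p : A) = (p : K) := map_natCast _ _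
    by_cases hpA : (p : A) ∈ maximalIdeal A
    · obtain ⟨c, w, hc, hw, hzcw, hres⟩ := hSpl K A p m zA hp hm hpm hzp
      obtain ⟨r1, r2, r3⟩ := hres hpA
      have hcharz : (p : ResidueField A) = 0 := by
        have h1 : residue A (p : A) = 0 := (residue_eq_zero_iff _).mpr hpA
        rw [map_natCast] at h1
        exact h1
      have : CharP (ResidueField A) p := (CharP.charP_iff_prime_eq_zero hp).mpr hcharz
      obtain ⟨k1, k2, k3⟩ := hred (ResidueField A) (residue A c) (by rw [r1]; exact r3)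
      obtain ⟨C, -, hC⟩ := hLoc K A p m c w h hp hpm hpA hc.pow_eq_one hw k1 k3
      obtain ⟨θ, -, hθ⟩ := hC 1 (fun hd => hp.one_lt.ne' (Nat.dvd_one.mp hd))
      rw [pow_one, ← hzcw] at hθ
      obtain ⟨-, ⟨u, hu⟩, -⟩ := hRam K A p w hp hpA hw
      have hs : s ≤ mu A h c := k2
      obtain ⟨d, hd⟩ := Nat.exists_eq_add_of_le hs
      have e1 : (aeval zA h) ^ (p - 1) =
          (p : A) ^ s * ((p : A) ^ d * (u : A) ^ (mu A h c) * θ ^ (p - 1)) := by
        rw [hθ, mul_pow, ← pow_mul, mul_comm (mu A h c) (p - 1), pow_mul, ← hu, mul_pow]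
        conv_lhs => rw [hd, pow_add]
        rw [← hd]
        ring
      have e2 : (aeval z h) ^ (p - 1) / (p : K) ^ s =
          algebraMap A K ((p : A) ^ d * (u : A) ^ (mu A h c) * θ ^ (p - 1)) := by
        rw [hev, ← map_pow, e1, map_mul, map_pow, hpA']
        field_simp
      rw [e2]
      exact amem A _
    · have hun : IsUnit (p : A) := by
        by_contra hc
        exact hpA ((mem_maximalIdeal _).mpr hc)
      obtain ⟨u, hu⟩ := hun
      have e1 : (aeval z h) ^ (p - 1) / (p : K) ^ s =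
          algebraMap A K ((aeval zA h) ^ (p - 1) * ((u⁻¹ : Aˣ) : A) ^ s) := by
        rw [hev, map_mul, map_pow, map_pow, div_eq_iff (pow_ne_zero _ hp0), mul_assoc, ← mul_pow,
          ← hpA', ← hu, ← map_mul, Units.inv_mul, map_one, one_pow, mul_one]
      rw [e1]
      exact amem A _
  have hint := isIntegral_of_forall_mem key
  have hne : (aeval z h) ^ (p - 1) / (p : K) ^ s ≠ 0 :=
    div_ne_zero (pow_ne_zero _ hy0) (pow_ne_zero _ hp0)
  have hnint : IsIntegral ℤ (Algebra.norm ℚ ((aeval z h) ^ (p - 1) / (p : K) ^ s)) :=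
    Algebra.isIntegral_norm ℚ hint
  obtain ⟨k, hk⟩ := (IsIntegrallyClosed.isIntegral_iff (R := ℤ) (K := ℚ)).mp hnint
  have hk0 : k ≠ 0 := by
    rintro rfl
    rw [map_zero] at hk
    exact (Algebra.norm_ne_zero_iff.mpr hne) hk.symm
  have hk1 : (1 : ℚ) ≤ |Algebra.norm ℚ ((aeval z h) ^ (p - 1) / (p : K) ^ s)| := by
    rw [← hk]
    have : (1 : ℤ) ≤ |k| := Int.one_le_abs hk0
    have h2 : ((1 : ℤ) : ℚ) ≤ ((|k| : ℤ) : ℚ) := by exact_mod_cast this
    simpa using h2
  have hfin : Module.finrank ℚ K = (p * m).totient := by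
    have : NeZero (p * m) := ⟨hpmpos.ne'⟩
    exact IsCyclotomicExtension.finrank K (cyclotomic.irreducible_rat hpmpos)
  have hmul : Algebra.norm ℚ ((aeval z h) ^ (p - 1) / (p : K) ^ s) *
      (p : ℚ) ^ (s * (p * m).totient) = Algebra.norm ℚ (aeval z h) ^ (p - 1) := by
    have h1 : ((aeval z h) ^ (p - 1) / (p : K) ^ s) * algebraMap ℚ K ((p : ℚ) ^ s) =
        (aeval z h) ^ (p - 1) := by
      rw [map_pow, map_natCast]
      field_simp
    have h2 := congrArg (Algebra.norm ℚ) h1
    rw [map_mul, Algebra.norm_algebraMap, hfin, map_pow, ← pow_mul] at h2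
    exact h2
  rw [← abs_pow, ← hmul, abs_mul]
  have hpos : (0 : ℚ) ≤ (p : ℚ) ^ (s * (p * m).totient) := by positivity
  rw [abs_of_nonneg hpos]
  nlinarith

end Pool.Agent.CYD.H27
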